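import Pool.Agent.Y403.CK3.Comp

/-!
# CONVEX SET IN 3D has no polynomial compression into any order type problem
# unless `coNP ⊆ NP/poly`
-/

set_option autoImplicit false

namespace Pool.Agent.Results.MP_e4fe5e_lc.NoCompression

open Pool.Agent.CK Pool.Agent.NPC Pool.Agent.H622R2 Pool.Agent.NPC.R671 Pool.Agent.Y403.CK3

/-- Suppose that some polynomial-time algorithm maps every instance `(S, k)` of CONVEX SET IN 3D to
* a set `S'` of at most `g k` points in space (in general position, with coordinates of any length)
  and a string `x` of at most `g k` bits, such that the answer for `(S, k)` is the answer to some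
  fixed question `A` about `S'` and `x` that depends only on the order type of `S'` and on `x`; or
* a string of at most `g k` bits, such that the answer for `(S, k)` is yes if and only if the
  string is in some fixed set of strings; or
* an equivalent instance of CONVEX SET IN 3D with at most `g k` points (a kernel),

where `g` is a polynomial. Then `coNP ⊆ NP/poly`. -/
theorem result :
    (∀ (A : List QPt → List Bool → Prop) (F : List Bool → List Bool) (g : Polynomial ℕ),
      OrderTypeProblem A → IsCompression A F (fun k => g.eval k) → CoNPSubsetNPPoly) ∧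
    (∀ (Λ : Set (List Bool)) (F : List Bool → List Bool) (g : Polynomial ℕ), PolyTime F →
      (∀ (S : List QPt) (k : ℕ), IsInstance S k →
        (HasConvexSubset S k ↔ F (bits (S, k)) ∈ Λ) ∧ (F (bits (S, k))).length ≤ g.eval k) →
      CoNPSubsetNPPoly) ∧
    (HasPolyKernel → CoNPSubsetNPPoly) := by
  refine ⟨fun A F g hA h => main' hA h, fun Λ F g hF h => ?_, main⟩
  have hP : Poly (fun y : List Bool => (([] : List RPt), F y)) :=
    NPC.Poly.pair (NPC.Poly.const _) (poly_of_polyTime hF)
  refine main' (A := fun _ x => x ∈ Λ) (F := fun y => bits (([] : List RPt), F y)) (g := g)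
    (fun S S' x _ _ _ _ _ => Iff.rfl) ⟨polyTime_bits hP, fun S k hI => ?_⟩
  obtain ⟨h1, h2⟩ := h S k hI
  refine ⟨[], F (bits (S, k)), (bits_raw' [] _).symm, List.nodup_nil, ?_, h1, Nat.zero_le _, h2⟩
  intro a ha
  exact absurd ha List.not_mem_nil

end Pool.Agent.Results.MP_e4fe5e_lc.NoCompression
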